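import Mathlib
import Pool.Agent.L0h11.N.Mn

/-!
# The analytic Nagao conjecture for generic complete intersection curves and their powers

Let `k` be a number field, `M` a finitely generated extension field of `k`, of transcendence degree `m`,
and let `Z` be a smooth projective geometrically connected variety over `M`, of dimension `n + 1 ≥ 2`. Let
`K = M(t)` be the field of rational functions over `M` in the coefficients `t` of `n` homogeneous forms of
given degrees `d_j ≥ 3`, and let `Y` be the curve over `K` which is the intersection of `Z` and of the `n`
generic hypersurfaces with these coefficients. The fibrations of this file are the models of the curve `Y`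
over the fields `L = K(Y^r)`, for all `r ≥ 0`; the base has the dimension `m + N + r`, where `N` is the
number of the coefficients. (`r = 0` is the case of the curve `Y` over `K`. The point of the fibre power
gives for `r ≥ 1` new divisor classes on the curve over `L`.)

The rank of the group of the question is
`rank P_Y(L)/τB(k) = rank P_Z(M)/τB(k) + (ρ(Z/M) - 1) + r * (rank Hom_M(Alb Z, P_Z) + 1)`
(by the theorem of Lefschetz, by `Pic(Y) = Pic(Z)`, as the total space of the family is a vector bundle
over `Z`, and since the vanishing part of the Jacobian of `Y` has only the endomorphisms by the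
integers, by the theorem on the monodromy of Lefschetz pencils).

Here it is proved that the analytic side has the same shape. The average over the points of the base of the
traces on `H¹` of the fibres of `Y` is, up to `O(q_v^(-1/4))`,
`𝔄_v(Z) - 𝔅_v(Z)/q_v - r * (ℭ_v(Z)/q_v) + (1 - r) * σ_v`,
where `𝔄_v(Z)`, `𝔅_v(Z)`, `ℭ_v(Z)` are the averages of the traces on `H¹`, `H²` and `H¹ ⊗ H¹` of the fibres of
`Z` over a model of `M`, and `σ_v` is the normalized number of the points of this model, whose
Dirichlet series has the residue `1`. So the residue of the question exists for the fibration of `Y` over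
`L` if and only if it exists for the sum of the series for `H¹(Z)` (this is the series of the question for `Z`
over `M`), `H²(Z)` (Tate's series) and `r` times the one for `H¹(Z) ⊗ H¹(Z)` (Tate's series again), and then they
correspond to each other exactly as the ranks above do.

In particular, if the cohomology of `Z` in the degrees `1` and `2` is algebraic, then the question has a
positive answer for `Y` over `L`: the residue is `ρ(Z/M) - 1 + r = rank P_Y(L)` (and `B = 0`). This applies to all
`Z` with `H¹(Z, 𝒪) = H²(Z, 𝒪) = 0`, over any `M`: for instance to rationally connected varieties, to complete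
intersections of dimension at least `3` in projective spaces, to Enriques surfaces.

The points over which the fibres are singular and those of a projective model of the base outside of the
open subscheme used here change the averages by `O(q_v^(-1/2))`, which does not affect the residues.
-/

set_option autoImplicit false

namespace Pool.Agent.Results.MP_3d3918_nt.GenericCurves

open NumberField IsDedekindDomain
open Pool.Agent.L0h11 (FrobVariety CurveFamily)
open Pool.Agent.Y707.PR (HasResidue)

/-- **The averages for the generic complete intersection curves `Y` of a variety `Z`, over the function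
field of the power `Y ^ r`.** Here `A` is a finitely generated domain over the ring of integers of the number
field `k`, with the field of fractions `M`, over which the equations of `Z` are given, and `N₁ ≠ 0` defines the open
subscheme of the base over which the curves are smooth.

(1) The average of the traces on `H¹` of the curves is, up to `O(q_v^(-1/4))`, the average `𝔄_v` of the traces on
`H¹(Z)`, minus the average of the traces on `H²(Z)`, divided by `q_v`, minus `r` times the average of the
traces on `H¹(Z) ⊗ H¹(Z)`, divided by `q_v`, plus `1 - r` times the normalized number `σ_v` of the points of the base,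
and the series of `σ_v` has the residue `1`.

(2) For every sequence `b` (the traces on the `H¹` of the trace variety of the question), the residue of the
series for `b - 𝔄(Y)` exists and is `ρ` if and only if the residue of the series for
`b - 𝔄(Z) + 𝔅(Z) / q + r * ℭ(Z) / q` exists and is `ρ + 1 - r`.

(3) If the cohomology of `Z` in the degrees one and two is algebraic, and `ρ` is the rank of the group of
the divisor classes defined over `M`, then the residue for `- 𝔄(Y)` exists and is `ρ - 1 + r`. -/
theorem result {k A M : Type} [Field k] [NumberField k] [CommRing A] [IsDomain A]
    [Algebra.FiniteType ℤ A] [Algebra (𝓞 k) A] [Field M] [CharZero M] [Algebra A M]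
    [IsFractionRing A M] {m : ℕ} (hm : Algebra.trdeg ℚ M = m) (T : CurveFamily A) {N₁ : T.B}
    (hN : T.IsModel N₁) :
    ((∃ C : ℝ, ∀ v : HeightOneSpectrum (𝓞 k),
        |T.average m N₁ v - (T.averageOne m N₁ v - T.averageTwo m N₁ v -
          T.r * T.averageSquare m N₁ v + (1 - T.r) * T.baseAverage m N₁ v fun _ => 1)| ≤
          C * (Ideal.absNorm v.asIdeal : ℝ) ^ (-(1 / 4) : ℝ)) ∧
      ∀ S : Finset (HeightOneSpectrum (𝓞 k)),
        HasResidue S (fun v => T.baseAverage m N₁ v fun _ => 1) 1 1) ∧
    (∀ (S : Finset (HeightOneSpectrum (𝓞 k))) (b : HeightOneSpectrum (𝓞 k) → ℝ) (ρ : ℝ),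
      HasResidue S (fun v => b v - T.average m N₁ v) 1 ρ ↔
        HasResidue S (fun v => b v - T.averageOne m N₁ v + T.averageTwo m N₁ v +
          T.r * T.averageSquare m N₁ v) 1 (ρ + 1 - T.r)) ∧
    (∀ ρ : ℝ, T.Z.IsAlgebraic m ρ → ∀ S : Finset (HeightOneSpectrum (𝓞 k)),
      HasResidue S (fun v => -T.average m N₁ v) 1 (ρ - 1 + T.r)) := by
  refine ⟨⟨?_, fun S => CurveFamily.sigma_residue (M := M) T hm hN.1 S⟩,
    fun S b ρ => CurveFamily.residue_iff (M := M) T hm hN S b ρ,
    fun ρ hT S => CurveFamily.residue_alg (M := M) T hm hN hT S⟩
  obtain ⟨K, hK⟩ := CurveFamily.average_near (M := M) (k := k) T hm hN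
  refine ⟨K, fun v => ?_⟩
  have h1 := hK v
  have hq : (0 : ℝ) < (Ideal.absNorm v.asIdeal : ℝ) :=
    lt_of_lt_of_le zero_lt_one (CurveFamily.one_le_nm v)
  rw [Real.rpow_neg hq.le, ← div_eq_mul_inv, le_div_iff₀ (by positivity)]
  exact h1

end Pool.Agent.Results.MP_3d3918_nt.GenericCurves
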