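import Mathlib
import Pool.Agent.L0h41.NG.Q

/-!
# MP_3d3918_nt: the Gaussian law for the Nagao sums of random hyperelliptic fibrations with given sections

Let `G` be a polynomial in `x` and `T`, monic of odd degree `2 g + 1` in `x`, and let `(e_i(T), f_i(T))`, `i < r`, be
sections of the fibration `y² = G(x, T)` with different `e_i` and with `f_i ≠ 0`, that is `G(e_i, T) = f_i²`. The fibrations

  `y² = F(x, T)`, `F(x, T) = G(x, T) + (A(T) + B(T) x) ∏ i, (x - e_i(T))`

have the same sections, for all polynomials `A` and `B`. If `r ≤ 2 g - 1` then `F` is monic of degree `2 g + 1` in `x`, all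
fibres (over the points of the affine line) are irreducible curves with one point at infinity, and the trace of Frobenius
at the prime `p ≠ 2` on the first étale cohomology group of the fibre over `t` is `p` minus the number of the solutions modulo `p` of
`y² = F(x, t)`. For `r = 0`, `G = x³` these are all the families of elliptic curves `y² = x³ + B(T) x + A(T)`, for `r = 1`,
`e = 0`, `G = x³ + f(T)²` they are all the families `y² = x³ + B(T) x² + A(T) x + f(T)²`. The rank of the group of the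
sections of the Jacobian of the fibration should be `r` for most `A` and `B`.

The coefficients of `A` and `B` are random integers, of absolute value at most `H i`, where the `H i` are at least a power
of `x`. The theorem says that the sum over the primes `p ≤ x` of `𝔄_p log p` (`𝔄_p`: the average of the traces of the fibres)
is `- r θ(x)`, `θ(x)` the sum of `log p`, up to an error which has in the limit the normal distribution with the variance
`x log x`. In particular Nagao's average, the sum divided by `x`, is near `- r` for almost all members, as in the question.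

From Mathlib: `MvPolynomial.eval ![x, t] G`: the value of `G`; `MvPolynomial.aeval ![e i, Polynomial.X] G`: the polynomial
`G(e_i(T), T)`; `ProbabilityTheory.cdf (ProbabilityTheory.gaussianReal 0 1)`: the distribution function of the standard
normal distribution.

Proof. Modulo `p`, the traces of the fibres at four different points `t` are independent, as functions of the coefficients of
`A` and `B` (interpolation), with known mean and variance. So the `𝔄_p` have the mean `- r + O(1/p)`, the variance `1 + O(1/p)` and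
bounded fourth moments. The characteristic function of the sum of the truncated `𝔄_p log p` is compared with that of
independent variables by the method of `Pool.Agent.L0h41.CL`; the prime number theorem gives the variance `x log x`.
-/

set_option autoImplicit false

namespace Pool.Agent.Results.MP_3d3918_nt.NagaoGaussian

open Finset
open Pool.Agent.L0h41.CL Pool.Agent.L0h41.NG

/-- `F(x, t) = G(x, t) + (A(t) + B(t) x) ∏ i, (x - e_i(t))`, where `A(t) = ∑ j, c (inl j) t^j`, `B(t) = ∑ j, c (inr j) t^j`. -/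
noncomputable def equation {r k₁ k₂ : ℕ} (G : MvPolynomial (Fin 2) ℤ) (e : Fin r → Polynomial ℤ)
    (c : Fin k₁ ⊕ Fin k₂ → ℤ) (x t : ℤ) : ℤ :=
  MvPolynomial.eval ![x, t] G + (∏ i, (x - (e i).eval t)) *
    ((∑ j : Fin k₁, c (Sum.inl j) * t ^ (j : ℕ)) + (∑ j : Fin k₂, c (Sum.inr j) * t ^ (j : ℕ)) * x)

/-- The number of the solutions `(x, y)` modulo `p` of `y² = F(x, t)`. -/
noncomputable def points {r k₁ k₂ : ℕ} (G : MvPolynomial (Fin 2) ℤ) (e : Fin r → Polynomial ℤ)
    (c : Fin k₁ ⊕ Fin k₂ → ℤ) (p : ℕ) (t : ℤ) : ℕ :=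
  ((range p ×ˢ range p).filter (fun xy : ℕ × ℕ => (p : ℤ) ∣ (xy.2 : ℤ) ^ 2 - equation G e c xy.1 t)).card

/-- The average `𝔄_p` over the points `t` of the affine line modulo `p` of the traces `p - points` of the fibres. -/
noncomputable def fibreAverage {r k₁ k₂ : ℕ} (G : MvPolynomial (Fin 2) ℤ) (e : Fin r → Polynomial ℤ)
    (c : Fin k₁ ⊕ Fin k₂ → ℤ) (p : ℕ) : ℝ := (∑ t ∈ range p, ((p : ℝ) - points G e c p t)) / p

/-- The primes `p ≤ x`. -/
def primes (x : ℕ) : Finset ℕ := (range (x + 1)).filter Nat.Prime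

/-- The sum of `𝔄_p log p` over the primes `p ≤ x`. -/
noncomputable def nagaoSum {r k₁ k₂ : ℕ} (G : MvPolynomial (Fin 2) ℤ) (e : Fin r → Polynomial ℤ)
    (c : Fin k₁ ⊕ Fin k₂ → ℤ) (x : ℕ) : ℝ := ∑ p ∈ primes x, Real.log p * fibreAverage G e c p

/-- The sum of `log p` over the primes `p ≤ x`. -/
noncomputable def theta (x : ℕ) : ℝ := ∑ p ∈ primes x, Real.log p

/-- The vectors of the coefficients of `A` and `B` with `|c i| ≤ H i` for all `i`. -/
noncomputable def Family {k₁ k₂ : ℕ} (H : Fin k₁ ⊕ Fin k₂ → ℕ) : Finset (Fin k₁ ⊕ Fin k₂ → ℤ) :=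
  Fintype.piFinset (fun i => Icc (-(H i : ℤ)) (H i))

open Classical in
/-- The proportion of the members of the family for which the sum is at most `- r θ(x) + u (x log x)^(1/2)`. -/
noncomputable def proportion {r k₁ k₂ : ℕ} (G : MvPolynomial (Fin 2) ℤ) (e : Fin r → Polynomial ℤ)
    (H : Fin k₁ ⊕ Fin k₂ → ℕ) (x : ℕ) (u : ℝ) : ℝ :=
  (((Family H).filter (fun c => nagaoSum G e c x + r * theta x ≤ u * √(x * Real.log x))).card : ℝ) / (Family H).card

/-- The distribution function of the standard normal distribution. -/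
noncomputable def normal (u : ℝ) : ℝ := ProbabilityTheory.cdf (ProbabilityTheory.gaussianReal 0 1) u

theorem fibreAverage_eq {r k₁ k₂ : ℕ} (G : MvPolynomial (Fin 2) ℤ) (e : Fin r → Polynomial ℤ)
    (c : Fin k₁ ⊕ Fin k₂ → ℤ) (p : ℕ) : fibreAverage G e c p = nag (GG G) (PP e) p c := rfl

/-- The Gaussian law. -/
theorem gaussian (k₁ k₂ : ℕ) (hk₁ : 4 ≤ k₁) (hk₂ : 4 ≤ k₂) (δ : ℝ) (hδ : 0 < δ) : ∃ C : ℕ,
    ∀ (r : ℕ) (G : MvPolynomial (Fin 2) ℤ) (e f : Fin r → Polynomial ℤ), Function.Injective e → (∀ i, f i ≠ 0) →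
      (∀ i, MvPolynomial.aeval ![e i, Polynomial.X] G = f i ^ 2) →
      ∃ x₀ : ℕ, ∀ x : ℕ, x₀ ≤ x → ∀ H : Fin k₁ ⊕ Fin k₂ → ℕ, (∀ i, x ^ C ≤ H i) →
        ∀ u : ℝ, |proportion G e H x u - normal u| ≤ δ := by
  classical
  obtain ⟨C, hC⟩ := nagao_clt hk₁ hk₂ δ hδ
  refine ⟨C, fun r G e f he hf hG => ?_⟩
  obtain ⟨C₁, hD⟩ := dat_of_sections (k₁ := k₁) (k₂ := k₂) hk₁ hk₂ he hf hG
  obtain ⟨x₀, hx₀⟩ := hC (GG G) (PP e) r C₁ hD
  refine ⟨x₀, fun x hx H hH u => ?_⟩
  have h := hx₀ x hx H hH u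
  unfold proportion normal
  refine le_trans (le_of_eq ?_) h
  congr 4

/-- The concentration of Nagao's averages. -/
theorem concentration (k₁ k₂ : ℕ) (hk₁ : 4 ≤ k₁) (hk₂ : 4 ≤ k₂) (δ : ℝ) (hδ : 0 < δ) : ∃ C : ℕ,
    ∀ (r : ℕ) (G : MvPolynomial (Fin 2) ℤ) (e f : Fin r → Polynomial ℤ), Function.Injective e → (∀ i, f i ≠ 0) →
      (∀ i, MvPolynomial.aeval ![e i, Polynomial.X] G = f i ^ 2) → ∀ ε : ℝ, 0 < ε →
      ∃ x₀ : ℕ, ∀ x : ℕ, x₀ ≤ x → ∀ H : Fin k₁ ⊕ Fin k₂ → ℕ, (∀ i, x ^ C ≤ H i) →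
        ∃ E ⊆ Family H, (E.card : ℝ) ≤ δ * (Family H).card ∧
          ∀ c ∈ Family H, c ∉ E → |nagaoSum G e c x / x - (-r)| ≤ ε := by
  classical
  obtain ⟨C, hC⟩ := gaussian k₁ k₂ hk₁ hk₂ (δ / 4) (by positivity)
  refine ⟨C, fun r G e f he hf hG ε hε => ?_⟩
  obtain ⟨x₁, hx₁⟩ := hC r G e f he hf hG
  -- the quantiles
  have hbot := ProbabilityTheory.tendsto_cdf_atBot (ProbabilityTheory.gaussianReal 0 1)
  have htop := ProbabilityTheory.tendsto_cdf_atTop (ProbabilityTheory.gaussianReal 0 1)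
  obtain ⟨M1, hM1⟩ := (hbot.eventually_lt_const (by positivity : (0 : ℝ) < δ / 4)).exists
  obtain ⟨M2, hM2⟩ := (htop.eventually_const_lt (by linarith : 1 - δ / 4 < (1 : ℝ))).exists
  obtain ⟨M, hM⟩ : ∃ M : ℝ, M = |M1| + |M2| + 1 := ⟨_, rfl⟩
  have hM0 : 0 < M := by rw [hM]; positivity
  have hMa : -M ≤ M1 := by
    rw [hM]
    have := neg_abs_le M1
    have := abs_nonneg M2
    linarith
  have hMb : M2 ≤ M := by
    rw [hM]
    have := le_abs_self M2
    have := abs_nonneg M1
    linarith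
  -- small quantities
  obtain ⟨x₂, hx₂3, hx₂⟩ := small_terms (4 * M ^ 2 / ε ^ 2 + 1)
  have hth := Pool.Agent.Cov.PNT.theta_div_tendsto
  rw [Metric.tendsto_atTop] at hth
  obtain ⟨X, hX⟩ := hth (ε / (2 * (r + 1))) (by positivity)
  refine ⟨x₁ + x₂ + ⌈X⌉₊, fun x hx H hH => ?_⟩
  have hx3 : (3 : ℝ) ≤ x := by exact_mod_cast (by omega : 3 ≤ x)
  have hx0 : (0 : ℝ) < x := by linarith
  have hxX : X ≤ x := (Nat.le_ceil X).trans (by exact_mod_cast (by omega : ⌈X⌉₊ ≤ x))
  have h1 := hx₁ x (by omega) H hH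
  have hlog : 0 ≤ Real.log x := Real.log_nonneg (by linarith)
  -- the square root
  have hs : M * √(x * Real.log x) ≤ ε / 2 * x := by
    have h2 := hx₂ x (by omega)
    have h3 : (4 * M ^ 2 / ε ^ 2) * Real.log x ≤ x := by
      refine le_trans ?_ h2
      have h4 : Real.log x ≤ (1 + Real.log x) ^ 4 := by
        calc Real.log x ≤ (1 + Real.log x) ^ 1 := by rw [pow_one]; linarith
          _ ≤ (1 + Real.log x) ^ 4 := pow_le_pow_right₀ (by linarith) (by norm_num)
      have h5 : 0 ≤ (1 + Real.log x) ^ 4 := by positivity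
      exact mul_le_mul (by linarith) h4 hlog (by positivity)
    have h4 : M ^ 2 * (x * Real.log x) ≤ (ε / 2 * x) ^ 2 := by
      have e1 : 4 * M ^ 2 / ε ^ 2 * Real.log x = 4 * M ^ 2 * Real.log x / ε ^ 2 := by ring
      rw [e1, div_le_iff₀ (by positivity)] at h3
      have h5 := mul_le_mul_of_nonneg_left h3 hx0.le
      have e2 : (ε / 2 * x) ^ 2 = x * (x * ε ^ 2) / 4 := by ring
      rw [e2]
      linarith
    calc M * √(x * Real.log x) = √(M ^ 2 * (x * Real.log x)) := by
          rw [Real.sqrt_mul (sq_nonneg M), Real.sqrt_sq hM0.le]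
      _ ≤ √((ε / 2 * x) ^ 2) := Real.sqrt_le_sqrt h4
      _ = ε / 2 * x := Real.sqrt_sq (by positivity)
  -- the theta function
  have ht : |r * theta x - r * x| ≤ ε / 2 * x := by
    have h2 := hX x hxX
    rw [Real.dist_eq] at h2
    have h3 : Chebyshev.theta (x : ℝ) = theta x := theta_prs x
    rw [h3] at h2
    have e1 : r * theta x - r * x = r * (theta x / x - 1) * x := by field_simp
    rw [e1, abs_mul, abs_mul, abs_of_pos hx0, abs_of_nonneg (Nat.cast_nonneg r)]
    refine mul_le_mul_of_nonneg_right ?_ hx0.le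
    have hr0 : (0 : ℝ) ≤ r := Nat.cast_nonneg _
    calc (r : ℝ) * |theta x / x - 1| ≤ (r + 1) * (ε / (2 * (r + 1))) :=
          mul_le_mul (by linarith) h2.le (abs_nonneg _) (by linarith)
      _ = ε / 2 := by field_simp
  have hbne : (0 : ℝ) < (Family H).card := by
    have : ((Family H).card : ℝ) = ∏ i, (2 * (H i : ℝ) + 1) := bxx_card H
    rw [this]
    exact prod_pos fun i _ => by positivity
  -- the exceptional set
  obtain ⟨E1, hE1⟩ : ∃ E1, E1 = (Family H).filter (fun c => nagaoSum G e c x + r * theta x ≤ (-M) * √(x * Real.log x)) :=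
    ⟨_, rfl⟩
  obtain ⟨E2, hE2⟩ : ∃ E2, E2 = (Family H).filter (fun c => ¬ nagaoSum G e c x + r * theta x ≤ M * √(x * Real.log x)) :=
    ⟨_, rfl⟩
  have c1 : (E1.card : ℝ) ≤ δ / 2 * (Family H).card := by
    have h2 := (abs_le.1 (h1 (-M))).2
    have h3 : normal (-M) ≤ δ / 4 := by
      have := ProbabilityTheory.monotone_cdf (ProbabilityTheory.gaussianReal 0 1) hMa
      unfold normal
      linarith
    unfold proportion at h2
    have h4 : ((Family H).filter (fun c => nagaoSum G e c x + r * theta x ≤ (-M) * √(x * Real.log x))).card /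
        ((Family H).card : ℝ) ≤ δ / 2 := by linarith
    rw [div_le_iff₀ hbne] at h4
    rw [hE1]
    exact h4
  have c2 : (E2.card : ℝ) ≤ δ / 2 * (Family H).card := by
    have h2 := (abs_le.1 (h1 M)).1
    have h3 : 1 - δ / 4 ≤ normal M := by
      have := ProbabilityTheory.monotone_cdf (ProbabilityTheory.gaussianReal 0 1) hMb
      unfold normal
      linarith
    unfold proportion at h2
    have h4 : 1 - δ / 2 ≤ ((Family H).filter (fun c => nagaoSum G e c x + r * theta x ≤ M * √(x * Real.log x))).card /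
        ((Family H).card : ℝ) := by linarith
    rw [le_div_iff₀ hbne] at h4
    have h5 : ((Family H).filter (fun c => nagaoSum G e c x + r * theta x ≤ M * √(x * Real.log x))).card + E2.card =
        (Family H).card := by
      rw [hE2]
      exact card_filter_add_card_filter_not _
    have h6 : (((Family H).filter (fun c => nagaoSum G e c x + r * theta x ≤ M * √(x * Real.log x))).card : ℝ) + E2.card =
        (Family H).card := by exact_mod_cast h5
    linarith
  refine ⟨E1 ∪ E2, ?_, ?_, ?_⟩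
  · rw [hE1, hE2]
    exact union_subset (filter_subset _ _) (filter_subset _ _)
  · have h2 : ((E1 ∪ E2).card : ℝ) ≤ E1.card + E2.card := by exact_mod_cast card_union_le _ _
    linarith
  · intro c hc hcE
    rw [mem_union, hE1, hE2, mem_filter, mem_filter] at hcE
    push Not at hcE
    have h2 := hcE.1 hc
    have h3 := hcE.2 hc
    have h4 : |nagaoSum G e c x + r * theta x| ≤ ε / 2 * x := by
      rw [abs_le]
      constructor <;> linarith
    have h5 : |nagaoSum G e c x + r * x| ≤ ε * x := by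
      have e1 : nagaoSum G e c x + r * x = (nagaoSum G e c x + r * theta x) - (r * theta x - r * x) := by ring
      rw [e1]
      refine (abs_sub _ _).trans ?_
      linarith
    have e2 : nagaoSum G e c x / x - (-r) = (nagaoSum G e c x + r * x) / x := by field_simp; ring
    rw [e2, abs_div, abs_of_pos hx0, div_le_iff₀ hx0]
    exact h5

/-- **The Gaussian law for the Nagao sums of random fibrations.** Let `4 ≤ k₁`, `4 ≤ k₂` be the numbers of the coefficients
of `A` and `B` and `δ > 0`. There is `C` such that for all `r`, all `G` and all sections `(e_i, f_i)`, `i < r`, of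
`y² = G(x, T)` with different `e_i` and with `f_i ≠ 0`, for `x ≥ x₀` and sizes `H i ≥ x ^ C`: (1) the distribution function of
`(∑ p ≤ x, 𝔄_p log p + r θ(x)) / (x log x)^(1/2)` on the family is the one of the standard normal distribution, up to `δ`,
uniformly in `u`; (2) for `x ≥ x₀(ε)`, for all members but a proportion `δ` the average of the `𝔄_p log p`, the sum over
`p ≤ x` divided by `x`, is `-r` up to `ε`. -/
theorem result (k₁ k₂ : ℕ) (hk₁ : 4 ≤ k₁) (hk₂ : 4 ≤ k₂) (δ : ℝ) (hδ : 0 < δ) : ∃ C : ℕ,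
    ∀ (r : ℕ) (G : MvPolynomial (Fin 2) ℤ) (e f : Fin r → Polynomial ℤ), Function.Injective e → (∀ i, f i ≠ 0) →
      (∀ i, MvPolynomial.aeval ![e i, Polynomial.X] G = f i ^ 2) →
      (∃ x₀ : ℕ, ∀ x : ℕ, x₀ ≤ x → ∀ H : Fin k₁ ⊕ Fin k₂ → ℕ, (∀ i, x ^ C ≤ H i) →
        ∀ u : ℝ, |proportion G e H x u - normal u| ≤ δ) ∧
      (∀ ε : ℝ, 0 < ε → ∃ x₀ : ℕ, ∀ x : ℕ, x₀ ≤ x → ∀ H : Fin k₁ ⊕ Fin k₂ → ℕ, (∀ i, x ^ C ≤ H i) →
        ∃ E ⊆ Family H, (E.card : ℝ) ≤ δ * (Family H).card ∧
          ∀ c ∈ Family H, c ∉ E → |nagaoSum G e c x / x - (-r)| ≤ ε) := by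
  obtain ⟨Ca, ha⟩ := gaussian k₁ k₂ hk₁ hk₂ δ hδ
  obtain ⟨Cb, hb⟩ := concentration k₁ k₂ hk₁ hk₂ δ hδ
  refine ⟨max Ca Cb, fun r G e f he hf hG => ⟨?_, fun ε hε => ?_⟩⟩
  · obtain ⟨x₀, h⟩ := ha r G e f he hf hG
    exact ⟨x₀ + 1, fun x hx H hH => h x (by omega) H
      (fun i => (Nat.pow_le_pow_right (by omega) (le_max_left _ _)).trans (hH i))⟩
  · obtain ⟨x₀, h⟩ := hb r G e f he hf hG ε hε
    exact ⟨x₀ + 1, fun x hx H hH => h x (by omega) H
      (fun i => (Nat.pow_le_pow_right (by omega) (le_max_right _ _)).trans (hH i))⟩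

end Pool.Agent.Results.MP_3d3918_nt.NagaoGaussian
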