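import Mathlib
import Pool.Agent.L0h50.NA.Main

/-!
# The analytic generalized Nagao conjecture and the restriction to random sections of the base

`𝒳 → U` is a smooth projective family of varieties over an open part `U` of `𝔸^n × 𝔸^k` over `ℚ`, with an integral
model: an arbitrary fibration whose base is birational to `ℙ^{n+k}`, outside of the singular fibres.  (A fibration over a
number field with a base birational to projective space is one over `ℚ`, by restriction of scalars of the base.)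
`φ_c : 𝔸^k → 𝔸^n` is a random polynomial map with integral coefficients: `φ_{c,j} = f_j + ∑_m c_{j,m} s^m`, `m ∈ M_j`,
where the `f_j` and the finite sets `M_j ∋ 0` of exponents are arbitrary, and the `c_{j,m}` are integers of absolute
value at most `H`.  The fibration `𝒳_c → 𝔸^k` is the restriction of `𝒳` to the graph of `φ_c`.
Examples: `k = 1` and `M_j = {0, …, d_j}` (the restrictions of `𝒳` to random rational curves, with a fibration of
arbitrary base dimension on one side and fibrations over curves on the other side); `M_j = {0}` for all `j` (the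
fibration `𝒳` is a family of fibrations over `𝔸^k` with `n` parameters, and the `𝒳_c` are its members); `f = 0` and
`𝒳` the pull-back of a family over `𝔸^n` (random base change).

`B_c` is the trace of `𝒳_c` (an abelian variety over `ℚ`).  If the `M_j` contain the exponents of degree one, then for most
`c` it is the trace `B` of `𝒳`, by a theorem of Bertini type, and `totalStar` below is `𝔄*_p(𝒳)`; in general it is
`𝔄_p(𝒳)` minus the average of the `a_p(B_c)`.  Let `r` be the rank of the group of the question for the generic member,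
the one over the field of rational functions in the `c_{j,m}` (it is the rank of `P_X(K) / τ B(ℚ)` if `B_c = B`).  By
the specialization theorems of Néron and Silverman the rank of the group for `𝒳_c` is for most `c` at least `r`,
and one expects that it is equal to `r`.  Here the analytic side of this is proved.

For all `c` outside of an exceptional set of proportion `δ`, the averages `𝔄*_p(𝒳_c)` of the question are so close
to the `𝔄*_p(𝒳)`, in the mean over `p`, that the series of the question for `𝒳_c` and for `𝒳` have the same behaviour: the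
sums over the primes `p ≤ x ≤ H^{1/3} / 2` differ by `O(x^{1/2} (log x)^3)`, the sums over `p ≤ H^{1/3} / 2` of the Dirichlet
series are at bounded distance in all half planes `Re s ≥ 1/2 + η`, and the complete series in `Re s > 1` up to the
contribution of the primes `p > H^{1/3} / 2`.  All this is uniform in a unitary twist `Θ` of given degree (for
instance an Artin representation, which may be induced from a number field `F`: this gives the series over `F`).
Consequently, for every number `r`, the residue of the series of `𝒳` is `-r` if and only if the series of almost all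
`𝒳_c` behave as if they had the residue `-r`, as far as this can be seen at the distance `K / log H` from `s = 1`; the
same holds for Nagao's original averages.

The points of the base over which the fibre is singular are left out in the averages; they, and the points of a projective
model of the base which are not in `𝔸^n × 𝔸^k`, change `𝔄_p` by `O(p^{-1/2})`, which does not affect the residues.

The starting results of this page are about special families of curves, for which the rank is computed.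
-/

set_option autoImplicit false

open Pool.Agent.Y722.HS Pool.Agent.L0h50.NA Filter Topology
open Pool.Agent.L0h50.FI (IsFibration Residue)

namespace Pool.Agent.Results.MP_3d3918_nt.RandomSections

section
variable {N n k : ℕ} {b : ℕ → ℕ}

/-- The series for `𝒳_c` and for `𝒳` are close to each other, for all `c` in the box outside of an exceptional set
of proportion `δ`: (1) Nagao's averages, for all `x` at the same time; (2) the partial sums of the Dirichlet series in the half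
plane `Re s ≥ 1/2 + η`; (3) the complete series in `1 < Re s ≤ 2`. The constants do not depend on `Θ`, `H` and `δ`. -/
def SectionsNearTotal (β : ∀ p : ℕ, (Base n k → ZMod p) → ∀ i : ℕ, Fin (b i) → ℂ)
    (P : MvPolynomial (Base n k) ℤ) (f : Fin n → MvPolynomial (Fin k) ℤ) (M : Fin n → Finset (Fin k → ℕ)) (p₀ : ℕ)
    (P₀ : MvPolynomial (Coef M) ℤ) (tr : ∀ p : ℕ, (Coef M → ZMod p) → ℂ) (ρ : ℕ) : Prop :=
  ∃ (C : ℝ) (D : ℝ → ℝ), 0 < C ∧ ∀ θ : ℕ → Fin ρ → ℂ, (∀ p i, ‖θ p i‖ ≤ 1) → ∀ H : ℕ, 2 ≤ H → ∀ δ : ℝ, 0 < δ →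
    ∃ X ⊆ box (Coef M) H, (X.card : ℝ) ≤ δ * (box (Coef M) H).card ∧ ∀ c ∈ box (Coef M) H \ X,
      (∀ x : ℕ, 2 ≤ x → 8 * x ^ 3 ≤ H →
        ‖nagaoMean θ (sectionStar β P f M p₀ P₀ tr c) x - nagaoMean θ (totalStar β P M p₀ tr) x‖ ≤
          Real.sqrt (C / δ) * (Real.log x ^ 3 / Real.sqrt x)) ∧
      (∀ η : ℝ, 0 < η → ∀ x : ℕ, 8 * x ^ 3 ≤ H → ∀ s : ℂ, 1 / 2 + η ≤ s.re →
        ‖partialSeries θ (sectionStar β P f M p₀ P₀ tr c) x s - partialSeries θ (totalStar β P M p₀ tr) x s‖ ≤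
          Real.sqrt (C / δ) * D η * (1 + ‖s‖)) ∧
      (∀ s : ℂ, 1 < s.re → s.re ≤ 2 →
        ‖series θ (sectionStar β P f M p₀ P₀ tr c) s - series θ (totalStar β P M p₀ tr) s‖ ≤
          Real.sqrt (C / δ) * (1 + ‖s‖) + C * ((H : ℝ) ^ (-((s.re - 1) / 3)) / (s.re - 1)))

/-- `(s - 1) ∑_p a_p log(p) p^{-s}` tends to `-r` as `s` tends to `1` from the right: for `𝒳` this is Q1 in the form
of a limit, if `r` is the rank. -/
def HasNagaoLimit (a : ℕ → ℂ) (r : ℝ) : Prop :=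
  Tendsto (fun ε : ℝ => (ε : ℂ) * series (fun _ _ => 1 : ℕ → Fin 1 → ℂ) a (1 + ε)) (𝓝[>] 0) (𝓝 (-r : ℂ))

/-- For all `c` in the box outside of a set of proportion `δ`, `(s - 1) ∑_p 𝔄*_p(𝒳_c) log(p) p^{-s}` is `-r`, up to `η`, at the
distances between `K / log H` and `ε₀` from `s = 1`. -/
def MostSectionsNagao (β : ∀ p : ℕ, (Base n k → ZMod p) → ∀ i : ℕ, Fin (b i) → ℂ)
    (P : MvPolynomial (Base n k) ℤ) (f : Fin n → MvPolynomial (Fin k) ℤ) (M : Fin n → Finset (Fin k → ℕ)) (p₀ : ℕ)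
    (P₀ : MvPolynomial (Coef M) ℤ) (tr : ∀ p : ℕ, (Coef M → ZMod p) → ℂ) (r : ℝ) : Prop :=
  ∀ δ η : ℝ, 0 < δ → 0 < η → ∃ K ε₀ : ℝ, 0 < K ∧ 0 < ε₀ ∧ ε₀ ≤ 1 ∧ ∀ H : ℕ, 2 ≤ H →
    ∃ X ⊆ box (Coef M) H, (X.card : ℝ) ≤ δ * (box (Coef M) H).card ∧ ∀ c ∈ box (Coef M) H \ X,
      ∀ ε : ℝ, K / Real.log H ≤ ε → ε ≤ ε₀ →
        ‖(ε : ℂ) * series (fun _ _ => 1 : ℕ → Fin 1 → ℂ) (sectionStar β P f M p₀ P₀ tr c) (1 + ε) + r‖ ≤ η

/-- Nagao's averages `x^{-1} ∑_{p ≤ x} a_p log(p)` tend to `-r`. -/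
def HasNagaoAverage (a : ℕ → ℂ) (r : ℝ) : Prop :=
  Tendsto (fun x : ℕ => nagaoMean (fun _ _ => 1 : ℕ → Fin 1 → ℂ) a x) atTop (𝓝 (-r : ℂ))

/-- For all `c` in the box outside of a set of proportion `δ`, Nagao's averages of the `𝔄*_p(𝒳_c)` are `-r`, up to `η`, for all
`x` between `x₀` and `H^{1/3} / 2`. -/
def MostSectionsAverage (β : ∀ p : ℕ, (Base n k → ZMod p) → ∀ i : ℕ, Fin (b i) → ℂ)
    (P : MvPolynomial (Base n k) ℤ) (f : Fin n → MvPolynomial (Fin k) ℤ) (M : Fin n → Finset (Fin k → ℕ)) (p₀ : ℕ)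
    (P₀ : MvPolynomial (Coef M) ℤ) (tr : ∀ p : ℕ, (Coef M → ZMod p) → ℂ) (r : ℝ) : Prop :=
  ∀ δ η : ℝ, 0 < δ → 0 < η → ∃ x₀ : ℕ, ∀ H : ℕ, 2 ≤ H →
    ∃ X ⊆ box (Coef M) H, (X.card : ℝ) ≤ δ * (box (Coef M) H).card ∧ ∀ c ∈ box (Coef M) H \ X,
      ∀ x : ℕ, x₀ ≤ x → 8 * x ^ 3 ≤ H →
        ‖nagaoMean (fun _ _ => 1 : ℕ → Fin 1 → ℂ) (sectionStar β P f M p₀ P₀ tr c) x + r‖ ≤ η

/-- The same as `MostSectionsNagao`, with an explicit error at all distances from `s = 1`. -/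
def SectionsWithError (β : ∀ p : ℕ, (Base n k → ZMod p) → ∀ i : ℕ, Fin (b i) → ℂ)
    (P : MvPolynomial (Base n k) ℤ) (f : Fin n → MvPolynomial (Fin k) ℤ) (M : Fin n → Finset (Fin k → ℕ)) (p₀ : ℕ)
    (P₀ : MvPolynomial (Coef M) ℤ) (tr : ∀ p : ℕ, (Coef M → ZMod p) → ℂ) (r : ℝ) : Prop :=
  ∃ C : ℝ, 0 < C ∧ ∀ H : ℕ, 2 ≤ H → ∀ δ : ℝ, 0 < δ → δ ≤ 1 →
    ∃ X ⊆ box (Coef M) H, (X.card : ℝ) ≤ δ * (box (Coef M) H).card ∧ ∀ c ∈ box (Coef M) H \ X,
      ∀ ε : ℝ, 0 < ε → ε ≤ 1 →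
        ‖(ε : ℂ) * series (fun _ _ => 1 : ℕ → Fin 1 → ℂ) (sectionStar β P f M p₀ P₀ tr c) (1 + ε) + r‖ ≤
          C * (ε / Real.sqrt δ + (H : ℝ) ^ (-(ε / 3)))

variable {β : ∀ p : ℕ, (Base n k → ZMod p) → ∀ i : ℕ, Fin (b i) → ℂ}
  {P : MvPolynomial (Base n k) ℤ} {f : Fin n → MvPolynomial (Fin k) ℤ} {M : Fin n → Finset (Fin k → ℕ)} {p₀ : ℕ}
  {P₀ : MvPolynomial (Coef M) ℤ} {tr : ∀ p : ℕ, (Coef M → ZMod p) → ℂ} {K : ℝ}
  {E : Set (MvPolynomial (Fin (N + 1)) (MvPolynomial (Base n k) ℤ))} {D : ℕ}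

lemma near (h : IsFibration E P D p₀ b β) (hM : ∀ j, (0 : Fin k → ℕ) ∈ M j)
    (hg : IsGeneric β P f M p₀ P₀ tr K) (hP : P₀ ≠ 0) (ρ : ℕ) : SectionsNearTotal β P f M p₀ P₀ tr ρ := by
  classical
  obtain ⟨C, B, hC, hB, hB1, hB2, hmost⟩ := most h hM hg hP ρ
  have hCC := CC_nonneg (η := (1 / 2 : ℝ)) (by norm_num)
  set C' : ℝ := 729 * C + C * CC (1 / 2) ^ 2 + 48 * B * ρ with hC'
  have hC'0 : 0 < C' := by positivity
  refine ⟨C', fun η => CC η, hC'0, fun θ hθ H hH δ hδ => ?_⟩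
  obtain ⟨X, hX, hX1, hX2⟩ := hmost θ hθ H δ hδ
  refine ⟨X, hX, hX1, fun c hc => ⟨fun x hx hxH => ?_, fun η hη x hxH s hs => ?_, fun s hs1 hs2 => ?_⟩⟩
  · have h1 := hX2 c hc x (by omega) hxH
    have hx0 : (0 : ℝ) < x := by exact_mod_cast (by omega : 0 < x)
    have hx2 : (2 : ℝ) ≤ x := by exact_mod_cast hx
    have hsx : 0 < Real.sqrt x := Real.sqrt_pos.mpr hx0
    have hlog : 0 ≤ Real.log x := Real.log_nonneg (by linarith)
    have e : nagaoMean θ (sectionStar β P f M p₀ P₀ tr c) x - nagaoMean θ (totalStar β P M p₀ tr) x =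
        (∑ p ∈ PR x, (sectionStar β P f M p₀ P₀ tr c p - totalStar β P M p₀ tr p) * (∑ i, θ p i) *
          (Real.log p : ℂ)) / x := by
      unfold nagaoMean
      rw [← sub_div, ← Finset.sum_sub_distrib]
      congr 1
      exact Finset.sum_congr rfl fun p _ => by ring
    rw [e, norm_div, Complex.norm_natCast, div_le_iff₀ hx0]
    refine h1.trans ?_
    have h2 : Real.sqrt (C / δ) * 27 ≤ Real.sqrt (C' / δ) := by
      rw [show (27 : ℝ) = Real.sqrt 729 by
        rw [show (729 : ℝ) = 27 ^ 2 by norm_num, Real.sqrt_sq (by norm_num)],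
        ← Real.sqrt_mul (by positivity)]
      apply Real.sqrt_le_sqrt
      rw [div_mul_eq_mul_div]
      gcongr
      have : 0 ≤ C * CC (1 / 2) ^ 2 + 48 * B * ρ := by positivity
      linarith
    have h3 : 1 + Real.log x ≤ 3 * Real.log x := by
      have h4 : Real.log 2 ≤ Real.log x := Real.log_le_log (by norm_num) hx2
      have h5 := Real.log_two_gt_d9
      linarith
    have h4 : (1 + Real.log x) ^ 3 ≤ 27 * Real.log x ^ 3 := by
      calc (1 + Real.log x) ^ 3 ≤ (3 * Real.log x) ^ 3 := by gcongr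
        _ = _ := by ring
    have h5 : Real.log x ^ 3 / Real.sqrt x * x = Real.sqrt x * Real.log x ^ 3 := by
      rw [div_mul_eq_mul_div, div_eq_iff hsx.ne']
      have : Real.sqrt x * Real.sqrt x = x := Real.mul_self_sqrt hx0.le
      linear_combination (-(Real.log x ^ 3)) * this
    rw [mul_assoc, h5]
    calc _ ≤ Real.sqrt (C / δ) * (Real.sqrt x * (27 * Real.log x ^ 3)) := by gcongr
      _ = (Real.sqrt (C / δ) * 27) * (Real.sqrt x * Real.log x ^ 3) := by ring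
      _ ≤ _ := by gcongr
  · have h1 := strip (fun p => (sectionStar β P f M p₀ P₀ tr c p - totalStar β P M p₀ tr p) * (∑ i, θ p i) *
      (Real.log p : ℂ)) x (A := Real.sqrt (C / δ)) (by positivity) hη (fun z hz hzx => hX2 c hc z hz (by
        have : z ^ 3 ≤ x ^ 3 := Nat.pow_le_pow_left hzx 3
        omega)) s hs
    have e : partialSeries θ (sectionStar β P f M p₀ P₀ tr c) x s - partialSeries θ (totalStar β P M p₀ tr) x s =
        ∑ p ∈ PR x, (sectionStar β P f M p₀ P₀ tr c p - totalStar β P M p₀ tr p) * (∑ i, θ p i) *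
          (Real.log p : ℂ) * (p : ℂ) ^ (-s) := by
      unfold partialSeries
      rw [← Finset.sum_sub_distrib]
      exact Finset.sum_congr rfl fun p _ => by ring
    rw [e]
    refine h1.trans ?_
    have h2 : Real.sqrt (C / δ) ≤ Real.sqrt (C' / δ) := by
      apply Real.sqrt_le_sqrt
      gcongr
      have : 0 ≤ 728 * C + C * CC (1 / 2) ^ 2 + 48 * B * ρ := by positivity
      linarith
    have h3 := CC_nonneg hη
    have h4 : 0 ≤ ‖s‖ := norm_nonneg s
    gcongr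
  · have h1 := complete hθ (sectionStar β P f M p₀ P₀ tr c) (totalStar β P M p₀ tr) hB
      (A := Real.sqrt (C / δ)) (by positivity) (hB1 c) hB2 H (by omega) (hX2 c hc) s hs1 hs2
    refine h1.trans ?_
    have h2 : Real.sqrt (C / δ) * CC (1 / 2) ≤ Real.sqrt (C' / δ) := by
      have e : CC (1 / 2) = Real.sqrt (CC (1 / 2) ^ 2) := (Real.sqrt_sq hCC).symm
      rw [e, ← Real.sqrt_mul (by positivity)]
      apply Real.sqrt_le_sqrt
      rw [div_mul_eq_mul_div]
      gcongr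
      have : 0 ≤ 729 * C + 48 * B * ρ := by positivity
      linarith
    have h3 : 48 * B * ρ ≤ C' := by
      have : 0 ≤ 729 * C + C * CC (1 / 2) ^ 2 := by positivity
      linarith
    have h4 : 0 ≤ ‖s‖ := norm_nonneg s
    have h5 : 0 ≤ (H : ℝ) ^ (-((s.re - 1) / 3)) / (s.re - 1) := by
      have : 0 < s.re - 1 := by linarith
      positivity
    gcongr

/-- The difference at real points. -/
lemma near_real (h : IsFibration E P D p₀ b β) (hM : ∀ j, (0 : Fin k → ℕ) ∈ M j)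
    (hg : IsGeneric β P f M p₀ P₀ tr K) (hP : P₀ ≠ 0) : ∃ C : ℝ, 0 < C ∧ ∀ H : ℕ, 2 ≤ H →
    ∀ δ : ℝ, 0 < δ → ∃ X ⊆ box (Coef M) H, (X.card : ℝ) ≤ δ * (box (Coef M) H).card ∧
      ∀ c ∈ box (Coef M) H \ X, ∀ ε : ℝ, 0 < ε → ε ≤ 1 →
        ‖(ε : ℂ) * series (fun _ _ => 1 : ℕ → Fin 1 → ℂ) (sectionStar β P f M p₀ P₀ tr c) (1 + ε) -
          (ε : ℂ) * series (fun _ _ => 1 : ℕ → Fin 1 → ℂ) (totalStar β P M p₀ tr) (1 + ε)‖ ≤
          C * (ε / Real.sqrt δ + (H : ℝ) ^ (-(ε / 3))) := by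
  obtain ⟨C, D, hC, h1⟩ := near h hM hg hP 1
  refine ⟨3 * Real.sqrt C + C, by positivity, fun H hH δ hδ => ?_⟩
  obtain ⟨X, hX, hX1, hX2⟩ := h1 (fun _ _ => 1) (fun _ _ => by simp) H hH δ hδ
  refine ⟨X, hX, hX1, fun c hc ε hε hε1 => ?_⟩
  have hre : ((1 : ℂ) + ε).re = 1 + ε := by simp
  have h2 := (hX2 c hc).2.2 (1 + ε) (by rw [hre]; linarith) (by rw [hre]; linarith)
  have hn : ‖(1 : ℂ) + ε‖ ≤ 2 := by
    have := norm_add_le (1 : ℂ) ε
    rw [norm_one, Complex.norm_real, Real.norm_of_nonneg hε.le] at this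
    linarith
  rw [hre, add_sub_cancel_left] at h2
  rw [← mul_sub, norm_mul, Complex.norm_real, Real.norm_of_nonneg hε.le]
  have hs : 0 < Real.sqrt δ := Real.sqrt_pos.mpr hδ
  have hH0 : 0 ≤ (H : ℝ) ^ (-(ε / 3)) := by positivity
  rw [Real.sqrt_div hC.le] at h2
  calc _ ≤ ε * (Real.sqrt C / Real.sqrt δ * (1 + 2) + C * ((H : ℝ) ^ (-(ε / 3)) / ε)) := by
        gcongr
        refine h2.trans ?_
        gcongr
    _ = 3 * Real.sqrt C * (ε / Real.sqrt δ) + C * (H : ℝ) ^ (-(ε / 3)) := by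
        field_simp
        ring
    _ ≤ _ := by
        have a1 : 0 ≤ C * (ε / Real.sqrt δ) := by positivity
        have a2 : 0 ≤ 3 * Real.sqrt C * (H : ℝ) ^ (-(ε / 3)) := by positivity
        nlinarith

lemma box_pos (H : ℕ) : (0 : ℝ) < (box (Coef M) H).card := by
  have h1 : (0 : Coef M → ℤ) ∈ box (Coef M) H := by
    unfold box IH
    rw [Fintype.mem_piFinset]
    intro i
    rw [Finset.mem_Icc]
    simp
  exact_mod_cast Finset.card_pos.mpr ⟨_, h1⟩

/-- An element outside of two small sets. -/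
lemma exists_good {H : ℕ} {X Y : Finset (Coef M → ℤ)} (hX : (X.card : ℝ) ≤ 1 / 3 * (box (Coef M) H).card)
    (hY : (Y.card : ℝ) ≤ 1 / 3 * (box (Coef M) H).card) :
    ∃ c, c ∈ box (Coef M) H \ X ∧ c ∈ box (Coef M) H \ Y := by
  classical
  by_contra hcon
  push Not at hcon
  have hbox := box_pos (M := M) H
  have h4 : box (Coef M) H ⊆ X ∪ Y := fun c hc => by
    rw [Finset.mem_union]
    by_cases hcX : c ∈ X
    · exact Or.inl hcX
    · right
      by_contra hcY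
      exact hcon c (Finset.mem_sdiff.mpr ⟨hc, hcX⟩) (Finset.mem_sdiff.mpr ⟨hc, hcY⟩)
  have h5 : ((box (Coef M) H).card : ℝ) ≤ X.card + Y.card := by
    exact_mod_cast (Finset.card_le_card h4).trans (Finset.card_union_le X Y)
  linarith

/-- `H^{-ε/3}` is small. -/
lemma small {C η : ℝ} (hC : 0 < C) (hη : 0 < η) : ∃ K : ℝ, 0 < K ∧ ∀ H : ℕ, 2 ≤ H → ∀ ε : ℝ,
    K / Real.log H ≤ ε → C * (H : ℝ) ^ (-(ε / 3)) ≤ η := by
  refine ⟨3 * (|Real.log (C / η)| + 1), by positivity, fun H hH ε hε => ?_⟩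
  have hH0 : (0 : ℝ) < H := by exact_mod_cast (by omega : 0 < H)
  have hlogH : 0 < Real.log H := Real.log_pos (by exact_mod_cast (by omega : 1 < H))
  rw [div_le_iff₀ hlogH] at hε
  have h1 : Real.log (C / η) ≤ ε / 3 * Real.log H := by
    have := le_abs_self (Real.log (C / η))
    linarith
  have h2 : C / η ≤ (H : ℝ) ^ (ε / 3) := by
    rw [Real.rpow_def_of_pos hH0, ← Real.log_le_iff_le_exp (by positivity), mul_comm]
    exact h1
  rw [Real.rpow_neg hH0.le, ← div_eq_mul_inv, div_le_iff₀ (by positivity)]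
  rw [div_le_iff₀ hη] at h2
  linarith

lemma forward (h : IsFibration E P D p₀ b β) (hM : ∀ j, (0 : Fin k → ℕ) ∈ M j)
    (hg : IsGeneric β P f M p₀ P₀ tr K) (hP : P₀ ≠ 0) {r : ℝ} (hr : HasNagaoLimit (totalStar β P M p₀ tr) r) :
    MostSectionsNagao β P f M p₀ P₀ tr r := by
  intro δ η hδ hη
  obtain ⟨C, hC, h1⟩ := near_real h hM hg hP
  obtain ⟨K₁, hK₁, h2⟩ := small (C := C) (η := η / 3) hC (by positivity)
  have h3 : ∀ᶠ ε : ℝ in 𝓝[>] 0, dist ((ε : ℂ) * series (fun _ _ => 1 : ℕ → Fin 1 → ℂ)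
      (totalStar β P M p₀ tr) (1 + ε)) (-r : ℂ) < η / 3 :=
    (Metric.tendsto_nhds.mp hr) (η / 3) (by positivity)
  rw [eventually_nhdsWithin_iff, Metric.eventually_nhds_iff] at h3
  obtain ⟨e₀, he₀, h4⟩ := h3
  have hs : 0 < Real.sqrt δ := Real.sqrt_pos.mpr hδ
  refine ⟨K₁, min (min 1 (e₀ / 2)) (η / 3 * Real.sqrt δ / C), hK₁, by positivity,
    (min_le_left _ _).trans (min_le_left _ _), fun H hH => ?_⟩
  obtain ⟨X, hX, hX1, hX2⟩ := h1 H hH δ hδ
  refine ⟨X, hX, hX1, fun c hc ε hε hε0 => ?_⟩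
  have hlogH : 0 < Real.log H := Real.log_pos (by exact_mod_cast (by omega : 1 < H))
  have hεp : 0 < ε := lt_of_lt_of_le (by positivity) hε
  have g1 := hX2 c hc ε hεp (hε0.trans ((min_le_left _ _).trans (min_le_left _ _)))
  have g2 := h2 H hH ε hε
  have g3 : ε < e₀ := lt_of_le_of_lt (hε0.trans ((min_le_left _ _).trans (min_le_right _ _))) (by linarith)
  have g4 := h4 (y := ε) (by rw [Real.dist_eq, sub_zero, abs_of_pos hεp]; exact g3) hεp
  have g5 : C * (ε / Real.sqrt δ) ≤ η / 3 := by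
    have := hε0.trans (min_le_right _ _)
    rw [le_div_iff₀ hC] at this
    rw [mul_div_assoc', div_le_iff₀ hs]
    linarith
  rw [dist_eq_norm, sub_neg_eq_add] at g4
  set S1 := (ε : ℂ) * series (fun _ _ => 1 : ℕ → Fin 1 → ℂ) (sectionStar β P f M p₀ P₀ tr c) (1 + ε)
  set S2 := (ε : ℂ) * series (fun _ _ => 1 : ℕ → Fin 1 → ℂ) (totalStar β P M p₀ tr) (1 + ε)
  have e : S1 + r = (S1 - S2) + (S2 + r) := by ring
  rw [e]
  refine (norm_add_le _ _).trans ?_
  rw [mul_add] at g1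
  linarith

lemma backward (h : IsFibration E P D p₀ b β) (hM : ∀ j, (0 : Fin k → ℕ) ∈ M j)
    (hg : IsGeneric β P f M p₀ P₀ tr K) (hP : P₀ ≠ 0) {r : ℝ} (hr : MostSectionsNagao β P f M p₀ P₀ tr r) :
    HasNagaoLimit (totalStar β P M p₀ tr) r := by
  classical
  unfold HasNagaoLimit
  rw [Metric.tendsto_nhds]
  intro η hη
  obtain ⟨C, hC, h1⟩ := near_real h hM hg hP
  obtain ⟨K₂, ε₀, hK₂, hε₀, hε₀1, h2⟩ := hr (1 / 3) (η / 4) (by norm_num) (by positivity)
  obtain ⟨K₁, hK₁, h3⟩ := small (C := C) (η := η / 4) hC (by positivity)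
  have hs : 0 < Real.sqrt (1 / 3 : ℝ) := Real.sqrt_pos.mpr (by norm_num)
  rw [eventually_nhdsWithin_iff, Metric.eventually_nhds_iff]
  refine ⟨min ε₀ (η / 4 * Real.sqrt (1 / 3) / C), by positivity, fun ε hd hε => ?_⟩
  have hε : 0 < ε := hε
  rw [Real.dist_eq, sub_zero, abs_of_pos hε] at hd
  have hεε₀ : ε < ε₀ := lt_of_lt_of_le hd (min_le_left _ _)
  have hε2 : ε < η / 4 * Real.sqrt (1 / 3) / C := lt_of_lt_of_le hd (min_le_right _ _)
  obtain ⟨H, hH⟩ := exists_nat_ge (Real.exp ((K₁ + K₂) / ε + 1))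
  have hHpos : (0 : ℝ) < H := lt_of_lt_of_le (Real.exp_pos _) hH
  have hH1 : (K₁ + K₂) / ε + 1 ≤ Real.log H := by
    rw [Real.le_log_iff_exp_le hHpos]
    exact hH
  have hq : 0 < (K₁ + K₂) / ε := by positivity
  have hH2 : 2 ≤ H := by
    have h5 : Real.exp 1 ≤ H := (Real.exp_le_exp.mpr (by linarith)).trans hH
    have h6 : (2 : ℝ) ≤ H := by
      have := Real.add_one_le_exp (1 : ℝ)
      linarith
    exact_mod_cast h6
  have hlogH : 0 < Real.log H := by linarith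
  have hKε : (K₁ + K₂) ≤ ε * Real.log H := by
    have h5 : (K₁ + K₂) / ε ≤ Real.log H := by linarith
    rw [div_le_iff₀ hε] at h5
    linarith
  have hH3 : K₁ / Real.log H ≤ ε := by
    rw [div_le_iff₀ hlogH]
    linarith
  have hH4 : K₂ / Real.log H ≤ ε := by
    rw [div_le_iff₀ hlogH]
    linarith
  obtain ⟨X, hX, hX1, hX2⟩ := h1 H hH2 (1 / 3) (by norm_num)
  obtain ⟨Y, hY, hY1, hY2⟩ := h2 H hH2
  obtain ⟨c, hcX, hcY⟩ := exists_good hX1 hY1
  have g1 := hX2 c hcX ε hε (by linarith)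
  have g2 := hY2 c hcY ε hH4 hεε₀.le
  have g3 := h3 H hH2 ε hH3
  have g5 : C * (ε / Real.sqrt (1 / 3)) ≤ η / 4 := by
    rw [lt_div_iff₀ hC] at hε2
    rw [mul_div_assoc', div_le_iff₀ hs]
    linarith
  rw [dist_eq_norm, sub_neg_eq_add]
  set S1 := (ε : ℂ) * series (fun _ _ => 1 : ℕ → Fin 1 → ℂ) (sectionStar β P f M p₀ P₀ tr c) (1 + ε)
  set S2 := (ε : ℂ) * series (fun _ _ => 1 : ℕ → Fin 1 → ℂ) (totalStar β P M p₀ tr) (1 + ε)
  have e : S2 + r = (S1 + r) - (S1 - S2) := by ring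
  rw [e]
  refine lt_of_le_of_lt (norm_sub_le _ _) ?_
  rw [mul_add] at g1
  linarith

/-- The difference of Nagao's averages tends to zero. -/
lemma average_small {C δ η : ℝ} (hη : 0 < η) : ∃ x₀ : ℕ, ∀ x : ℕ, x₀ ≤ x →
    Real.sqrt (C / δ) * (Real.log x ^ 3 / Real.sqrt x) ≤ η := by
  have h1 : Tendsto (fun x : ℝ => Real.log x ^ 3 / x ^ ((1 : ℝ) / 2)) atTop (𝓝 0) := by
    have := isLittleO_log_rpow_rpow_atTop 3 (show (0 : ℝ) < 1 / 2 by norm_num)
    have h2 := this.tendsto_div_nhds_zero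
    refine h2.congr' ?_
    filter_upwards [eventually_gt_atTop 1] with x hx
    have e : Real.log x ^ (3 : ℝ) = Real.log x ^ 3 := by
      rw [show (3 : ℝ) = ((3 : ℕ) : ℝ) by norm_num, Real.rpow_natCast]
    rw [e]
  have h2 : Tendsto (fun x : ℕ => Real.sqrt (C / δ) * (Real.log x ^ 3 / Real.sqrt x)) atTop (𝓝 0) := by
    have h3 := (h1.comp tendsto_natCast_atTop_atTop).const_mul (Real.sqrt (C / δ))
    rw [mul_zero] at h3
    refine h3.congr fun x => ?_
    simp only [Function.comp_apply]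
    rw [Real.sqrt_eq_rpow (x : ℝ)]
  obtain ⟨x₀, hx₀⟩ := eventually_atTop.mp (h2.eventually (ge_mem_nhds hη))
  exact ⟨x₀, hx₀⟩

lemma forward_average (h : IsFibration E P D p₀ b β) (hM : ∀ j, (0 : Fin k → ℕ) ∈ M j)
    (hg : IsGeneric β P f M p₀ P₀ tr K) (hP : P₀ ≠ 0) {r : ℝ} (hr : HasNagaoAverage (totalStar β P M p₀ tr) r) :
    MostSectionsAverage β P f M p₀ P₀ tr r := by
  intro δ η hδ hη
  obtain ⟨C, _, hC, h1⟩ := near h hM hg hP 1
  obtain ⟨x₁, hx₁⟩ := average_small (C := C) (δ := δ) (half_pos hη)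
  obtain ⟨x₂, hx₂⟩ := eventually_atTop.mp ((Metric.tendsto_nhds.mp hr) (η / 2) (by positivity))
  refine ⟨max 2 (max x₁ x₂), fun H hH => ?_⟩
  obtain ⟨X, hX, hX1, hX2⟩ := h1 (fun _ _ => 1) (fun _ _ => by simp) H hH δ hδ
  refine ⟨X, hX, hX1, fun c hc x hx hxH => ?_⟩
  simp only [max_le_iff] at hx
  have g1 := (hX2 c hc).1 x hx.1 hxH
  have g2 := hx₁ x hx.2.1
  have g3 := hx₂ x hx.2.2
  rw [dist_eq_norm, sub_neg_eq_add] at g3
  set S1 := nagaoMean (fun _ _ => 1 : ℕ → Fin 1 → ℂ) (sectionStar β P f M p₀ P₀ tr c) x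
  set S2 := nagaoMean (fun _ _ => 1 : ℕ → Fin 1 → ℂ) (totalStar β P M p₀ tr) x
  have e : S1 + r = (S1 - S2) + (S2 + r) := by ring
  rw [e]
  refine (norm_add_le _ _).trans ?_
  linarith

lemma backward_average (h : IsFibration E P D p₀ b β) (hM : ∀ j, (0 : Fin k → ℕ) ∈ M j)
    (hg : IsGeneric β P f M p₀ P₀ tr K) (hP : P₀ ≠ 0) {r : ℝ} (hr : MostSectionsAverage β P f M p₀ P₀ tr r) :
    HasNagaoAverage (totalStar β P M p₀ tr) r := by
  classical
  unfold HasNagaoAverage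
  rw [Metric.tendsto_nhds]
  intro η hη
  obtain ⟨C, _, hC, h1⟩ := near h hM hg hP 1
  obtain ⟨x₁, hx₁⟩ := average_small (C := C) (δ := 1 / 3) (show 0 < η / 4 by positivity)
  obtain ⟨x₂, hx₂⟩ := hr (1 / 3) (η / 4) (by norm_num) (by positivity)
  rw [eventually_atTop]
  refine ⟨max 2 (max x₁ x₂), fun x hx => ?_⟩
  simp only [max_le_iff] at hx
  have hH : 2 ≤ 8 * x ^ 3 := by
    have : 1 ≤ x ^ 3 := Nat.one_le_pow _ _ (by omega)
    omega
  obtain ⟨X, hX, hX1, hX2⟩ := h1 (fun _ _ => 1) (fun _ _ => by simp) (8 * x ^ 3) hH (1 / 3) (by norm_num)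
  obtain ⟨Y, hY, hY1, hY2⟩ := hx₂ (8 * x ^ 3) hH
  obtain ⟨c, hcX, hcY⟩ := exists_good hX1 hY1
  have g1 := (hX2 c hcX).1 x hx.1 le_rfl
  have g2 := hx₁ x hx.2.1
  have g3 := hY2 c hcY x hx.2.2 le_rfl
  rw [dist_eq_norm, sub_neg_eq_add]
  set S1 := nagaoMean (fun _ _ => 1 : ℕ → Fin 1 → ℂ) (sectionStar β P f M p₀ P₀ tr c) x
  set S2 := nagaoMean (fun _ _ => 1 : ℕ → Fin 1 → ℂ) (totalStar β P M p₀ tr) x
  have e : S2 + r = (S1 + r) - (S1 - S2) := by ring
  rw [e]
  refine lt_of_le_of_lt (norm_sub_le _ _) ?_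
  linarith

lemma one_series (a : ℕ → ℂ) (s : ℂ) : series (fun _ _ => 1 : ℕ → Fin 1 → ℂ) a s =
    ∑' p : Nat.Primes, a p * (Real.log p : ℂ) * ((p : ℕ) : ℂ) ^ (-s) := by
  unfold series
  simp

/-- The trivial bound. -/
lemma trivial_bound (a : ℕ → ℂ) {B : ℝ} (hB : 0 ≤ B) (ha : ∀ p : ℕ, p.Prime → ‖a p‖ ≤ B) (ε : ℝ) (hε : 0 < ε)
    (hε1 : ε ≤ 1) : ‖(ε : ℂ) * series (fun _ _ => 1 : ℕ → Fin 1 → ℂ) a (1 + ε)‖ ≤ 12 * B := by
  have h1 := (tail_gen_log (fun p => a p * (Real.log p : ℂ) * (p : ℂ) ^ (-(1 + ε : ℂ))) B hB ε hε hε1 (by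
    intro p hp
    have hp1 : (1 : ℝ) ≤ p := by exact_mod_cast hp.one_lt.le
    have hp0 : (0 : ℝ) < p := by linarith
    have e1 : ‖(p : ℂ) ^ (-(1 + ε : ℂ))‖ = (p : ℝ) ^ (-1 - ε) := by
      rw [← Complex.ofReal_natCast, Complex.norm_cpow_eq_rpow_re_of_pos hp0]
      congr 1
      simp
      ring
    have hlog := Real.log_nonneg hp1
    rw [norm_mul, norm_mul, e1, Complex.norm_real, Real.norm_of_nonneg hlog, mul_assoc]
    gcongr
    exact ha p hp) 0).2
  have h0 : PR 0 = ∅ := by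
    ext p
    rw [mem_PR]
    simp only [Finset.notMem_empty, iff_false]
    intro h
    have := h.2.pos
    omega
  rw [h0, Finset.sum_empty, sub_zero] at h1
  rw [one_series, norm_mul, Complex.norm_real, Real.norm_of_nonneg hε.le]
  have h2 : (((0 + 1 : ℕ) : ℝ)) ^ (-ε) = 1 := by simp
  rw [h2] at h1
  calc _ ≤ ε * (B * (12 * (1 / ε))) := by gcongr
    _ = _ := by field_simp

lemma residue_bound (a : ℕ → ℂ) {B : ℝ} (hB : 0 ≤ B) (ha : ∀ p : ℕ, p.Prime → ‖a p‖ ≤ B) {r : ℝ}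
    (hr : Residue 0 a (-r)) : ∃ C : ℝ, 0 < C ∧ ∀ ε : ℝ, 0 < ε → ε ≤ 1 →
      ‖(ε : ℂ) * series (fun _ _ => 1 : ℕ → Fin 1 → ℂ) a (1 + ε) + r‖ ≤ C * ε := by
  obtain ⟨g, hg, hev⟩ := hr
  have e0 : ((0 : ℕ) : ℂ) / 2 + 1 = 1 := by simp
  rw [e0] at hg hev
  have hgb : ∀ᶠ s in 𝓝 (1 : ℂ), ‖g s‖ ≤ ‖g 1‖ + 1 := by
    have := hg.continuousAt.norm
    exact this.eventually (ge_mem_nhds (by linarith))
  obtain ⟨e₁, he₁, h1⟩ := Metric.eventually_nhds_iff.mp (hev.and hgb)
  refine ⟨(‖g 1‖ + 1) + (12 * B + |r|) / (e₁ / 2), by positivity, fun ε hε hε1 => ?_⟩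
  by_cases hlt : ε < e₁
  · have hd : dist ((1 : ℂ) + ε) 1 < e₁ := by
      rw [dist_eq_norm, add_sub_cancel_left, Complex.norm_real, Real.norm_of_nonneg hε.le]
      exact hlt
    obtain ⟨h2, h3⟩ := h1 hd
    have h4 := h2 (by simpa using hε)
    rw [one_series, h4]
    have hεc : (ε : ℂ) ≠ 0 := by exact_mod_cast hε.ne'
    have e2 : (ε : ℂ) * (((-r : ℝ) : ℂ) / (1 + ε - 1) + g (1 + ε)) + r = (ε : ℂ) * g (1 + ε) := by
      rw [add_sub_cancel_left, mul_add, mul_div_cancel₀ _ hεc]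
      push_cast
      ring
    rw [e2, norm_mul, Complex.norm_real, Real.norm_of_nonneg hε.le]
    have h5 : 0 ≤ (12 * B + |r|) / (e₁ / 2) := by positivity
    calc _ ≤ ε * (‖g 1‖ + 1) := by gcongr
      _ ≤ _ := by nlinarith
  · push Not at hlt
    have h2 := trivial_bound a hB ha ε hε hε1
    have h3 : ‖(ε : ℂ) * series (fun _ _ => 1 : ℕ → Fin 1 → ℂ) a (1 + ε) + r‖ ≤ 12 * B + |r| := by
      refine (norm_add_le _ _).trans ?_
      rw [Complex.norm_real, Real.norm_eq_abs]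
      linarith
    refine h3.trans ?_
    have h4 : 12 * B + |r| ≤ (12 * B + |r|) / (e₁ / 2) * ε := by
      rw [div_mul_eq_mul_div, le_div_iff₀ (by positivity)]
      have : e₁ / 2 ≤ ε := by linarith
      gcongr
    have h5 : 0 ≤ (‖g 1‖ + 1) * ε := by positivity
    rw [add_mul]
    linarith

lemma residue_case (h : IsFibration E P D p₀ b β) (hM : ∀ j, (0 : Fin k → ℕ) ∈ M j)
    (hg : IsGeneric β P f M p₀ P₀ tr K) (hP : P₀ ≠ 0) {r : ℝ} (hr : Residue 0 (totalStar β P M p₀ tr) (-r)) :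
    HasNagaoLimit (totalStar β P M p₀ tr) r ∧ SectionsWithError β P f M p₀ P₀ tr r := by
  obtain ⟨_, B, -, hB, -, hB2, -⟩ := most h hM hg hP 1
  obtain ⟨C₁, hC₁, h₁⟩ := residue_bound (totalStar β P M p₀ tr) hB hB2 hr
  constructor
  · unfold HasNagaoLimit
    rw [Metric.tendsto_nhds]
    intro η hη
    rw [eventually_nhdsWithin_iff, Metric.eventually_nhds_iff]
    refine ⟨min 1 (η / C₁), by positivity, fun ε hd hε => ?_⟩
    have hε : 0 < ε := hε
    rw [Real.dist_eq, sub_zero, abs_of_pos hε] at hd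
    have g1 := h₁ ε hε (hd.le.trans (min_le_left _ _))
    have g2 := lt_of_lt_of_le hd (min_le_right _ _)
    rw [lt_div_iff₀ hC₁] at g2
    rw [dist_eq_norm, sub_neg_eq_add]
    linarith
  · obtain ⟨C, hC, h2⟩ := near_real h hM hg hP
    refine ⟨C + C₁, by positivity, fun H hH δ hδ hδ1 => ?_⟩
    obtain ⟨X, hX, hX1, hX2⟩ := h2 H hH δ hδ
    refine ⟨X, hX, hX1, fun c hc ε hε hε1 => ?_⟩
    have g1 := hX2 c hc ε hε hε1
    have g2 := h₁ ε hε hε1
    have g4 : 0 < Real.sqrt δ := Real.sqrt_pos.mpr hδ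
    have g5 : Real.sqrt δ ≤ 1 := by
      rw [← Real.sqrt_one]
      exact Real.sqrt_le_sqrt hδ1
    have g6 : ε ≤ ε / Real.sqrt δ := by
      rw [le_div_iff₀ g4]
      exact mul_le_of_le_one_right hε.le g5
    set S1 := (ε : ℂ) * series (fun _ _ => 1 : ℕ → Fin 1 → ℂ) (sectionStar β P f M p₀ P₀ tr c) (1 + ε)
    set S2 := (ε : ℂ) * series (fun _ _ => 1 : ℕ → Fin 1 → ℂ) (totalStar β P M p₀ tr) (1 + ε)
    have e : S1 + r = (S1 - S2) + (S2 + r) := by ring
    rw [e]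
    refine (norm_add_le _ _).trans ?_
    have hH0 : 0 ≤ (H : ℝ) ^ (-(ε / 3)) := by positivity
    have g7 : C₁ * ε ≤ C₁ * (ε / Real.sqrt δ + (H : ℝ) ^ (-(ε / 3))) := by
      gcongr
      linarith
    calc _ ≤ C * (ε / Real.sqrt δ + (H : ℝ) ^ (-(ε / 3))) + C₁ * (ε / Real.sqrt δ + (H : ℝ) ^ (-(ε / 3))) := by
          linarith
      _ = _ := by ring

end

/-- **The conjecture and the restriction to random sections.** Let `𝒳` be a smooth projective family of varieties over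
the open part `P ≠ 0` of `𝔸^n × 𝔸^k` over `ℚ`, with a good integral model outside of the primes `p < p₀`, and let the `𝒳_c` be
the restrictions of `𝒳` to the graphs of the random polynomial maps `φ_c`; `tr p c` is the trace of the Frobenius for the
trace `B_c` of `𝒳_c` (Deligne's theorem gives `IsGeneric`).
(1) For every unitary `Θ`, the series of `𝒳_c` is close to the one of `𝒳`, for most `c`.
(2) For every number `r`, the limit of `(s - 1) ∑_p 𝔄*_p(𝒳) log(p) p^{-s}` at `s = 1` is `-r` if and only if this holds for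
most `𝒳_c` at the distances between `K / log H` and `ε₀`.
(3) The same for Nagao's averages over `p ≤ x ≤ H^{1/3} / 2`.
(4) If the series of `𝒳` has a meromorphic continuation to a neighbourhood of `s = 1` with the residue `-r`, then one has
(2) with an explicit error at all distances. -/
theorem result {N n k : ℕ} (E : Set (MvPolynomial (Fin (N + 1)) (MvPolynomial (Base n k) ℤ)))
    (P : MvPolynomial (Base n k) ℤ) (D p₀ : ℕ) (b : ℕ → ℕ)
    (β : ∀ p : ℕ, (Base n k → ZMod p) → ∀ i : ℕ, Fin (b i) → ℂ) (h : IsFibration E P D p₀ b β)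
    (f : Fin n → MvPolynomial (Fin k) ℤ) (M : Fin n → Finset (Fin k → ℕ)) (hM : ∀ j, (0 : Fin k → ℕ) ∈ M j)
    (P₀ : MvPolynomial (Coef M) ℤ) (hP : P₀ ≠ 0) (tr : ∀ p : ℕ, (Coef M → ZMod p) → ℂ) (K : ℝ)
    (hg : IsGeneric β P f M p₀ P₀ tr K) :
    (∀ ρ : ℕ, SectionsNearTotal β P f M p₀ P₀ tr ρ) ∧
    (∀ r : ℝ, HasNagaoLimit (totalStar β P M p₀ tr) r ↔ MostSectionsNagao β P f M p₀ P₀ tr r) ∧
    (∀ r : ℝ, HasNagaoAverage (totalStar β P M p₀ tr) r ↔ MostSectionsAverage β P f M p₀ P₀ tr r) ∧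
    (∀ r : ℝ, Residue 0 (totalStar β P M p₀ tr) (-r) →
      HasNagaoLimit (totalStar β P M p₀ tr) r ∧ SectionsWithError β P f M p₀ P₀ tr r) :=
  ⟨fun ρ => near h hM hg hP ρ, fun _ => ⟨forward h hM hg hP, backward h hM hg hP⟩,
    fun _ => ⟨forward_average h hM hg hP, backward_average h hM hg hP⟩, fun _ hr => residue_case h hM hg hP hr⟩

end Pool.Agent.Results.MP_3d3918_nt.RandomSections
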